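import Pool.Agent.CI.Core

/-!
# Project DN (MP_d362fb_lc): the Boolean valued core

`B` is a complete Boolean algebra; names of partial functions from `ω` to `ω` as `B`-valued
functions.
-/

set_option autoImplicit false

namespace DN

open CI

universe u

/-- name of a partial function from `ω` to `ω`: `f n k = ⟦n ∈ dom f and f(n) = k⟧` -/
structure PFu (B : Type u) [CompleteBooleanAlgebra B] where
  f : ℕ → ℕ → B
  disj : ∀ n k k', k ≠ k' → f n k ⊓ f n k' = ⊥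

variable {B : Type u} [CompleteBooleanAlgebra B]

/-- `⟦n ∈ dom x⟧` -/
def PFu.dom (x : PFu B) (n : ℕ) : B := ⨆ k, x.f n k

/-- `⟦x(n) = y(n) for all n ≥ m in dom x ∩ dom y⟧` -/
def agr (x y : PFu B) (m : ℕ) : B :=
  ⨅ n : ℕ, ⨅ _ : m ≤ n, ⨅ k : ℕ, ⨅ l : ℕ, ⨅ _ : k ≠ l, (x.f n k ⊓ y.f n l)ᶜ

/-- `⟦x(n) > h(n) for all n ≥ m in dom x ∖ dom y⟧` -/
def abv (x y : PFu B) (h : Fu B) (m : ℕ) : B :=
  ⨅ n : ℕ, ⨅ _ : m ≤ n, ⨅ k : ℕ, ⨅ l : ℕ, ⨅ _ : k ≤ l, (x.f n k ⊓ (y.dom n)ᶜ ⊓ h.f n l)ᶜ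

/-- `⟦dom x ∖ dom y is infinite⟧` -/
def dinf (x y : PFu B) : B := ⨅ m : ℕ, ⨆ n : ℕ, ⨆ _ : m ≤ n, x.dom n ⊓ (y.dom n)ᶜ

/-- `x`, `y` is (with truth value `⊤`) a bad pair for `h = F(x)`, `h' = F(y)`: `x` and `y` agree
mod finite on the common domain, `x >* h'` on `dom x ∖ dom y`, `y >* h` on `dom y ∖ dom x`, and
both differences are infinite -/
structure Bad (x y : PFu B) (h h' : Fu B) : Prop where
  agr : ⨆ m, agr x y m = ⊤
  abv : ⨆ m, abv x y h' m = ⊤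
  abv' : ⨆ m, DN.abv y x h m = ⊤
  inf : dinf x y = ⊤
  inf' : dinf y x = ⊤

variable (B) in
/-- the Boolean core: every `F` has a bad pair -/
structure DeltaCore : Prop where
  nontriv : (⊥ : B) ≠ ⊤
  bad : ∃ (I : Type u) (x : I → PFu B), ∀ F : I → Fu B, ∃ i j, Bad (x i) (x j) (F i) (F j)

end DN
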