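import Pool.Agent.DN.T4

/-!
# Project DN (MP_d362fb_lc): the Boolean core gives a model of ZFC in which the nabla product of
`ω` copies of `ω + 1` is not monotonically normal
-/

set_option autoImplicit false

namespace DN

open CI BSet Ordinal

universe u v

variable {B : Type u} [CompleteBooleanAlgebra B] {G : Type v}

/-- `[x]` is not in `U_y` if `dom y ∖ dom x` is infinite -/
theorem not_nb (x y : PFu B) (h : dinf y x = ⊤) (U : Ult B) :
    ¬ Nb (EU U) (cl U (wN B)) (cl U (ptN y)) (cl U (ptN x)) := by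
  rintro ⟨m, hm, hmn⟩
  have hD : Df (B := B) (G := BSet B) (fun U m => ∀ n a, EU U n (cl U (wN B)) →
      ¬ EU U n (cl U m) → Rel (EU U) (cl U (ptN y)) n a → a ≠ cl U (wN B) →
      Rel (EU U) (cl U (ptN x)) n a) :=
    Df.all (Df.all (Df.imp (Df.mem _ _) (Df.imp (Df.not (Df.mem _ _)) (Df.imp (Df.Rel _ _ _)
      (Df.imp (Df.not (Df.eq _ _)) (Df.Rel _ _ _))))))
  refine ball_omega (R := fun U m => ¬ ∀ n a, EU U n (cl U (wN B)) → ¬ EU U n m →
      Rel (EU U) (cl U (ptN y)) n a → a ≠ cl U (wN B) → Rel (EU U) (cl U (ptN x)) n a)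
      hD.not ⊤ ?_ U U.top m hm hmn
  intro U _ m hmn
  obtain ⟨Q, hQ⟩ := Df.get (B := B) (P' := fun U => ∀ n a, EU U n (cl U (wN B)) →
      ¬ EU U n (cl U (oN B m)) → Rel (EU U) (cl U (ptN y)) n a → a ≠ cl U (wN B) →
      Rel (EU U) (cl U (ptN x)) n a) (hD.comp (fun _ : Unit => oN B (m : Ordinal.{u})))
  have hQU := (hQ U).1 hmn
  apply U.bot
  refine U.mono ?_ hQU
  have h1 : (⨆ n : ℕ, ⨆ _ : m ≤ n, y.dom n ⊓ (x.dom n)ᶜ) = ⊤ := by
    rw [eq_top_iff, ← h]
    exact iInf_le _ m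
  calc Q = (⨆ n : ℕ, ⨆ _ : m ≤ n, y.dom n ⊓ (x.dom n)ᶜ) ⊓ Q := by rw [h1, top_inf_eq]
    _ ≤ ⊥ := by
      rw [iSup_inf_eq]
      refine iSup_le fun n => ?_
      rw [iSup_inf_eq]
      refine iSup_le fun hn => ?_
      rw [PFu.dom, iSup_inf_eq, iSup_inf_eq]
      refine iSup_le fun k => ?_
      rw [le_iff_ult]
      intro V hV
      exfalso
      simp only [V.inf, V.compl] at hV
      obtain ⟨⟨hk, hx⟩, hQV⟩ := hV
      have h2 := (hQ V).2 hQV (cl V (oN B n)) (cl V (vN B (some k))) (nat_mem_omega V n)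
        (by rw [EU_oN, Nat.cast_lt]; exact not_lt.2 hn) ((rel_ptN y V n (some k)).2 hk)
        (nat_ne_w V k)
      rw [rel_ptN] at h2
      exact hx (V.mono (x.le_dom n k) h2)

/-- there is no monotone normality operator -/
theorem no_op (hB : DeltaCore B) (U : Ult B) :
    ¬ ∃ g, IsMNOp (EU U) (cl U (wN B)) (cl U (w1N B)) g := by
  rintro ⟨g, hg⟩
  obtain ⟨g, rfl⟩ := cl_surj U g
  obtain ⟨b, hb⟩ := Df.get (B := B) (P' := fun U => IsMNOp (EU U) (cl U (wN B)) (cl U (w1N B))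
    (cl U g)) (Df.IsMNOp _ _ _)
  have hbU := (hb U).1 hg
  obtain ⟨I, x, hx⟩ := hB.bad
  choose v F hF using fun i => exists_side (x i) g b (fun U hU => (hb U).2 hU)
  obtain ⟨i, j, hbad⟩ := hx F
  apply U.bot
  refine U.mono ?_ hbU
  calc b = (⨆ m, agr (x i) (x j) m) ⊓ ((⨆ m, abv (x i) (x j) (F j) m) ⊓
        ((⨆ m, abv (x j) (x i) (F i) m) ⊓ b)) := by
        rw [hbad.agr, hbad.abv, hbad.abv']; simp
    _ ≤ ⊥ := by
      rw [iSup_inf_eq]
      refine iSup_le fun m₁ => ?_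
      rw [iSup_inf_eq, inf_iSup_eq]
      refine iSup_le fun m₂ => ?_
      rw [iSup_inf_eq, inf_iSup_eq, inf_iSup_eq]
      refine iSup_le fun m₃ => ?_
      rw [le_iff_ult]
      intro V hV
      exfalso
      simp only [V.inf] at hV
      obtain ⟨h1, h2, h3, hbV⟩ := hV
      set m := max m₁ (max m₂ m₃) with hm
      have hop := (hb V).2 hbV
      -- the points of the intersection
      have hz1 := mrg_box (x i) (x j) (F i) (v i) b m₃ m
        ((le_max_right _ _).trans (le_max_right _ _))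
        (fun U hU => ⟨(hF i U hU).1, (hF i U hU).2.2⟩) V hbV h3
      have hz2 := mrg_box (x j) (x i) (F j) (v j) b m₂ m
        ((le_max_left _ _).trans (le_max_right _ _))
        (fun U hU => ⟨(hF j U hU).1, (hF j U hU).2.2⟩) V hbV h2
      have hzz := mrg_eqv (x i) (x j) m₁ m V h1 (le_max_left _ _)
      obtain ⟨p1, W1, d1, hp1, hW1, hd1, hy1⟩ := (hF i V hbV).2.1 _ hz1 (isMap_ptN _ V)
      obtain ⟨p2, W2, d2, hp2, hW2, hd2, hy2⟩ := (hF j V hbV).2.1 _ hz2 (isMap_ptN _ V)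
      obtain ⟨D, -, -, ho1, ho2⟩ := hop
      have hc1 := (ho1 _ _ _ _ hp1 hW1).1.1 _ hd1
      have hc2 := (ho1 _ _ _ _ hp2 hW2).1.1 _ hd2
      have hdd : d1 = d2 := hc1.ext (zfc V) (dirW V) hc2 hy1 hy2 hzz
      subst hdd
      have key : ∀ x y : PFu B, dinf y x = ⊤ → ¬ EU V (cl V (clsN (ptN x)))
          (cl V (opnN (ptN y))) := by
        intro x y hxy hmem
        obtain ⟨hcls, t, ht, hnb⟩ := (mem_opnN V _ _).1 hmem
        apply not_nb x y hxy V
        exact hnb.congr (dirW V) (isMap_ptN x V).1 ((mem_clsN V _ _).1 ht).2.symm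
      rcases ho2 _ _ _ _ _ _ _ _ hp1 hW1 hp2 hW2 ⟨d1, hd1, hd2⟩ with h | h
      · exact key _ _ hbad.inf' h
      · exact key _ _ hbad.inf h

end DN

/-- the transfer theorem -/
theorem DN.transfer (B : Type) [CompleteBooleanAlgebra B] (hB : DN.DeltaCore B) : DN.Final := by
  obtain ⟨U, -⟩ := CI.exists_ult (a := (⊤ : B)) hB.nontriv.symm
  exact ⟨CI.MU U, CI.EU U, CI.zfc U, CI.cl U (DN.wN B), CI.cl U (DN.w1N B), CI.isOmega_oN U,
    DN.isSucc_w1N U, DN.no_op hB U⟩
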