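import Pool.Agent.CI.Model

/-!
# Project DN (MP_d362fb_lc): the nabla product of `ω` copies of `ω + 1` inside a model of set
theory

`M` is a type, `E x y` means: `x` is an element of `y`; `w` is the set of natural numbers of `M`
and `w1 = w ∪ {w}` is the ordinal `ω + 1` of `M`.
-/

set_option autoImplicit false

namespace DN

open CI

section

universe u

variable {M : Type u} (E : M → M → Prop) (w w1 : M)

/-- `V` is an open subset of the space `ω + 1` with the order topology: a subset which, if it
contains the point `ω`, contains all natural numbers `n ≥ m` for some natural number `m` -/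
def IsOpnF (V : M) : Prop :=
  Sub E V w1 ∧ (E w V → ∃ m, E m w ∧ ∀ n, E n w → ¬ E n m → E n V)

/-- `v` is an open box with `x` in it: a function on `w` whose value at every `n` is an open
subset of `ω + 1` which contains `x(n)` -/
def IsBox (v x : M) : Prop :=
  IsFn E v w ∧ (∀ n s, Rel E v n s → IsOpnF E w w1 s) ∧ ∀ n s a, Rel E v n s → Rel E x n a → E a s

/-- the functions `x` and `y` on `w` are equivalent: the set of all `n` with `x(n) ≠ y(n)` is
finite, that is contained in a natural number -/
def Eqv (x y : M) : Prop :=
  ∃ m, E m w ∧ ∀ n a b, E n w → ¬ E n m → Rel E x n a → Rel E y n b → a = b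

/-- `c` is a point of the nabla product: the equivalence class of a point `x` of the product of
`ω` copies of `ω + 1` -/
def IsCls (c : M) : Prop :=
  ∃ x, IsMap E x w w1 ∧ ∀ y, E y c ↔ IsMap E y w w1 ∧ Eqv E w x y

/-- `O` is an open set of the nabla product (with the quotient topology of the box topology): a
set of classes such that the set of all points `x` of the product whose class belongs to `O` is
open in the box product, that is: for every `x` in it there is an open box with `x` in it which
is contained in it -/
def IsNOpn (O : M) : Prop :=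
  (∀ c, E c O → IsCls E w w1 c) ∧ ∀ c x, E c O → E x c → ∃ v, IsBox E w w1 v x ∧
    ∀ y, IsBox E w w1 v y → IsMap E y w w1 → ∃ d, E d O ∧ E y d

/-- `g` is a monotone normality operator for the nabla product: a function whose domain `D` is the
set of all pairs `(c, O)` where `O` is an open set and `c` a point of `O`; its values are open
sets with `c ∈ g(c, O) ⊆ O`, such that `g(c, O) ∩ g(c', O') ≠ ∅` implies `c ∈ O'` or `c' ∈ O` -/
def IsMNOp (g : M) : Prop :=
  ∃ D, (∀ p, E p D ↔ ∃ c O, IsNOpn E w w1 O ∧ E c O ∧ IsPair E p c O) ∧ IsFn E g D ∧
    (∀ c O p W, IsPair E p c O → Rel E g p W → IsNOpn E w w1 W ∧ E c W ∧ Sub E W O) ∧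
    ∀ c O p W c' O' p' W', IsPair E p c O → Rel E g p W → IsPair E p' c' O' → Rel E g p' W' →
      (∃ z, E z W ∧ E z W') → E c O' ∨ E c' O

end

/-- the final statement for MP_d362fb_lc: there is a model of ZFC in which the nabla product of `ω`
copies of `ω + 1` is not monotonically normal -/
def Final : Prop := ∃ (M : Type 1) (E : M → M → Prop), ZFC E ∧ ∃ w w1 : M, IsOmega E w ∧
  IsSucc E w1 w ∧ ¬ ∃ g, IsMNOp E w w1 g

end DN
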