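import Pool.Agent.DN.Defs
import Pool.Agent.DN.Core
import Pool.Agent.CI.T.Fam

/-!
# Project DN (MP_d362fb_lc): the notions of the problem have truth values; names of classes and
open sets
-/

set_option autoImplicit false

namespace DN

open CI BSet Ordinal

universe u v

section

variable {M : Type u} {E : M → M → Prop} {w w1 : M}

/-- `w` is directed under inclusion -/
def Dir (E : M → M → Prop) (w : M) : Prop :=
  ∀ m m', E m w → E m' w → ∃ k, E k w ∧ Sub E m k ∧ Sub E m' k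

/-- `t` is in the set `N(x, 0)` -/
def Nb (E : M → M → Prop) (w x t : M) : Prop :=
  ∃ m, E m w ∧ ∀ n a, E n w → ¬ E n m → Rel E x n a → a ≠ w → Rel E t n a

theorem Eqv.symm {x y : M} (h : Eqv E w x y) : Eqv E w y x := by
  obtain ⟨m, hm, h⟩ := h
  exact ⟨m, hm, fun n a b hn hnm ha hb => (h n b a hn hnm hb ha).symm⟩

theorem eqv_refl (hw : ∃ e, E e w) {x : M} (hx : IsFn E x w) : Eqv E w x x := by
  obtain ⟨m, hm⟩ := hw
  exact ⟨m, hm, fun n a b hn _ ha hb => (hx.2 n hn).unique ha hb⟩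

theorem Eqv.trans (hd : Dir E w) {x y z : M} (hy : IsFn E y w) (h : Eqv E w x y)
    (h' : Eqv E w y z) : Eqv E w x z := by
  obtain ⟨m, hm, h⟩ := h
  obtain ⟨m', hm', h'⟩ := h'
  obtain ⟨k, hk, h1, h2⟩ := hd m m' hm hm'
  refine ⟨k, hk, fun n a c hn hnk ha hc => ?_⟩
  obtain ⟨b, hb, -⟩ := hy.2 n hn
  rw [h n a b hn (fun h3 => hnk (h1 n h3)) ha hb, h' n b c hn (fun h3 => hnk (h2 n h3)) hb hc]

theorem Nb.congr (hd : Dir E w) {x t t' : M} (ht' : IsFn E t' w) (h : Nb E w x t)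
    (h' : Eqv E w t t') : Nb E w x t' := by
  obtain ⟨m, hm, h⟩ := h
  obtain ⟨m', hm', h'⟩ := h'
  obtain ⟨k, hk, h1, h2⟩ := hd m m' hm hm'
  refine ⟨k, hk, fun n a hn hnk ha haw => ?_⟩
  obtain ⟨b, hb, -⟩ := ht'.2 n hn
  have h3 := h n a hn (fun h3 => hnk (h1 n h3)) ha haw
  rw [h' n a b hn (fun h3 => hnk (h2 n h3)) h3 hb]
  exact hb

theorem IsCls.map {c y : M} (h : IsCls E w w1 c) (hy : E y c) : IsMap E y w w1 := by
  obtain ⟨x, hx, h⟩ := h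
  exact ((h y).1 hy).1

theorem IsCls.eqv (hd : Dir E w) {c y z : M} (h : IsCls E w w1 c) (hy : E y c) (hz : E z c) :
    Eqv E w y z := by
  obtain ⟨x, hx, h⟩ := h
  exact ((h y).1 hy).2.symm.trans hd hx.1 ((h z).1 hz).2

theorem IsCls.mem (hd : Dir E w) {c y z : M} (h : IsCls E w w1 c) (hy : E y c)
    (hz : IsMap E z w w1) (hyz : Eqv E w y z) : E z c := by
  have hym := h.map hy
  obtain ⟨x, hx, h⟩ := h
  exact (h z).2 ⟨hz, ((h y).1 hy).2.trans hd hym.1 hyz⟩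

theorem IsCls.ext (hE : ZFC E) (hd : Dir E w) {c d y z : M} (hc : IsCls E w w1 c)
    (hd' : IsCls E w w1 d) (hy : E y c) (hz : E z d) (hyz : Eqv E w y z) : c = d := by
  apply hE.ext
  intro t
  constructor
  · intro ht
    exact hd'.mem hd hz (hc.map ht) (hyz.symm.trans hd (hc.map hy).1 (hc.eqv hd hy ht))
  · intro ht
    exact hc.mem hd hy (hd'.map ht) (hyz.trans hd (hd'.map hz).1 (hd'.eqv hd hz ht))

end

variable {B : Type u} [CompleteBooleanAlgebra B] {G : Type v}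

theorem Df.IsOpnF (w w1 x : G → BSet B) :
    Df (fun U g => DN.IsOpnF (EU U) (cl U (w g)) (cl U (w1 g)) (cl U (x g))) := by
  unfold DN.IsOpnF
  exact Df.and (Df.Sub _ _) (Df.imp (Df.mem _ _) (Df.ex (Df.and (Df.mem _ _)
    (Df.all (Df.imp (Df.mem _ _) (Df.imp (Df.not (Df.mem _ _)) (Df.mem _ _)))))))

theorem Df.IsBox (w w1 x y : G → BSet B) :
    Df (fun U g => DN.IsBox (EU U) (cl U (w g)) (cl U (w1 g)) (cl U (x g)) (cl U (y g))) := by
  unfold DN.IsBox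
  refine Df.and (Df.IsFn _ _) (Df.and (Df.all (Df.all (Df.imp (Df.Rel _ _ _) ?_)))
    (Df.all (Df.all (Df.all (Df.imp (Df.Rel _ _ _) (Df.imp (Df.Rel _ _ _) (Df.mem _ _)))))))
  exact Df.IsOpnF _ _ _

theorem Df.Eqv (w x y : G → BSet B) :
    Df (fun U g => DN.Eqv (EU U) (cl U (w g)) (cl U (x g)) (cl U (y g))) := by
  unfold DN.Eqv
  exact Df.ex (Df.and (Df.mem _ _) (Df.all (Df.all (Df.all (Df.imp (Df.mem _ _)
    (Df.imp (Df.not (Df.mem _ _)) (Df.imp (Df.Rel _ _ _) (Df.imp (Df.Rel _ _ _)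
      (Df.eq _ _)))))))))

theorem Df.Nb (w x y : G → BSet B) :
    Df (fun U g => DN.Nb (EU U) (cl U (w g)) (cl U (x g)) (cl U (y g))) := by
  unfold DN.Nb
  exact Df.ex (Df.and (Df.mem _ _) (Df.all (Df.all (Df.imp (Df.mem _ _)
    (Df.imp (Df.not (Df.mem _ _)) (Df.imp (Df.Rel _ _ _) (Df.imp (Df.not (Df.eq _ _))
      (Df.Rel _ _ _))))))))

theorem Df.IsCls (w w1 c : G → BSet B) :
    Df (fun U g => DN.IsCls (EU U) (cl U (w g)) (cl U (w1 g)) (cl U (c g))) := by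
  unfold DN.IsCls
  exact Df.ex (Df.and (Df.IsMap _ _ _) (Df.all (Df.iff (Df.mem _ _) (Df.and (Df.IsMap _ _ _)
    (Df.Eqv _ _ _)))))

theorem Df.IsNOpn (w w1 c : G → BSet B) :
    Df (fun U g => DN.IsNOpn (EU U) (cl U (w g)) (cl U (w1 g)) (cl U (c g))) := by
  unfold DN.IsNOpn
  exact Df.and (Df.all (Df.imp (Df.mem _ _) (Df.IsCls _ _ _)))
    (Df.all (Df.all (Df.imp (Df.mem _ _) (Df.imp (Df.mem _ _) (Df.ex (Df.and (Df.IsBox _ _ _ _)
      (Df.all (Df.imp (Df.IsBox _ _ _ _) (Df.imp (Df.IsMap _ _ _)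
        (Df.ex (Df.and (Df.mem _ _) (Df.mem _ _))))))))))))

theorem Df.IsMNOp (w w1 c : G → BSet B) :
    Df (fun U g => DN.IsMNOp (EU U) (cl U (w g)) (cl U (w1 g)) (cl U (c g))) := by
  unfold DN.IsMNOp
  refine Df.ex (Df.and (Df.all (Df.iff (Df.mem _ _) (Df.ex (Df.ex (Df.and (Df.IsNOpn _ _ _)
    (Df.and (Df.mem _ _) (Df.IsPair _ _ _))))))) (Df.and (Df.IsFn _ _) (Df.and ?_ ?_)))
  · exact Df.all (Df.all (Df.all (Df.all (Df.imp (Df.IsPair _ _ _) (Df.imp (Df.Rel _ _ _)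
      (Df.and (Df.IsNOpn _ _ _) (Df.and (Df.mem _ _) (Df.Sub _ _))))))))
  · refine Df.all (Df.all (Df.all (Df.all (Df.all (Df.all (Df.all (Df.all ?_)))))))
    refine Df.imp (Df.IsPair _ _ _) (Df.imp (Df.Rel _ _ _) (Df.imp (Df.IsPair _ _ _)
      (Df.imp (Df.Rel _ _ _) (Df.imp (Df.ex (Df.and (Df.mem _ _) (Df.mem _ _)))
        (Df.or (Df.mem _ _) (Df.mem _ _))))))

end DN
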