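import Pool.Agent.DN.T1

/-!
# Project DN (MP_d362fb_lc): names of points, boxes, classes and open sets
-/

set_option autoImplicit false

namespace DN

open CI BSet Ordinal

universe u v

variable {B : Type u} [CompleteBooleanAlgebra B] {G : Type v}

variable (B) in
/-- the name of `ω` -/
noncomputable abbrev wN : BSet B := oN B ω

variable (B) in
/-- the name of `ω + 1` -/
noncomputable abbrev w1N : BSet B := oN B (Order.succ ω)

theorem mem_w1N (U : Ult B) (z : MU U) :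
    EU U z (cl U (w1N B)) ↔ EU U z (cl U (wN B)) ∨ z = cl U (wN B) := EU_succ U ω z

theorem isSucc_w1N (U : Ult B) : IsSucc (EU U) (cl U (w1N B)) (cl U (wN B)) := mem_w1N U

theorem nat_ne_w (U : Ult B) (n : ℕ) : cl U (oN B n) ≠ cl U (wN B) := by
  rw [Ne, oN_inj]
  exact (natCast_lt_omega0 n).ne

theorem w_not_mem_w (U : Ult B) : ¬ EU U (cl U (wN B)) (cl U (wN B)) := by
  rw [EU_oN]
  exact lt_irrefl _

/-- `ω` is directed -/
theorem dirW (U : Ult B) : Dir (EU U) (cl U (wN B)) := by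
  intro m m' hm hm'
  refine ball_omega (R := fun U m => ∀ m', EU U m' (cl U (wN B)) → ∃ k, EU U k (cl U (wN B)) ∧
    Sub (EU U) m k ∧ Sub (EU U) m' k) ?_ ⊤ ?_ U U.top m hm m' hm'
  · exact Df.all (Df.imp (Df.mem _ _) (Df.ex (Df.and (Df.mem _ _) (Df.and (Df.Sub _ _)
      (Df.Sub _ _)))))
  intro U _ m m' hm'
  refine ball_omega (R := fun U m' => ∃ k, EU U k (cl U (wN B)) ∧
    Sub (EU U) (cl U (oN B m)) k ∧ Sub (EU U) m' k) ?_ ⊤ ?_ U U.top m' hm'
  · exact Df.ex (Df.and (Df.mem _ _) (Df.and (Df.Sub _ _) (Df.Sub _ _)))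
  intro U _ m'
  refine ⟨cl U (oN B (max m m' : ℕ)), nat_mem_omega U _, ?_, ?_⟩
  · intro z hz
    exact EU_oN_mono U (Nat.cast_le.2 (le_max_left m m')) z hz
  · intro z hz
    exact EU_oN_mono U (Nat.cast_le.2 (le_max_right m m')) z hz

/-! ### functions on `ω` with given names of the values -/

/-- the name of a function with domain `ω` -/
noncomputable def sqN (v : ℕ → BSet B) : BSet B :=
  relN (I := ULift.{u} ℕ) (fun _ => ⊤) (fun n => oN B (n.down : ℕ)) (fun n => v n.down)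

theorem rel_sqN (v : ℕ → BSet B) (U : Ult B) (n : ℕ) (y : MU U) :
    Rel (EU U) (cl U (sqN v)) (cl U (oN B n)) y ↔ y = cl U (v n) := by
  obtain ⟨y, rfl⟩ := cl_surj U y
  rw [sqN, rel_relN, cl_eq]
  have : (⨆ i : ULift.{u} ℕ, (⊤ : B) ⊓ (beq (oN B n) (oN B (i.down : ℕ)) ⊓ beq y (v i.down))) =
      beq y (v n) := by
    apply le_antisymm
    · refine iSup_le fun i => ?_
      by_cases h : n = i.down
      · subst h
        exact inf_le_right.trans inf_le_right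
      · rw [beq_nat_ne h]; simp
    · refine le_iSup_of_le ⟨n⟩ ?_
      rw [beq_refl]; simp
  rw [this]

theorem isFn_sqN (v : ℕ → BSet B) (U : Ult B) : IsFn (EU U) (cl U (sqN v)) (cl U (wN B)) := by
  constructor
  · intro p hp
    obtain ⟨s, t, rfl, h⟩ := mem_relN U _ _ _ p hp
    refine ⟨cl U s, cl U t, ?_, isPair_opN U s t⟩
    rw [EU_cl]
    refine U.mono ?_ h
    refine iSup_le fun i => ?_
    rw [le_iff_ult]
    intro V hV
    rw [V.inf, V.inf, ← cl_eq] at hV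
    rw [← EU_cl, hV.2.1]
    exact nat_mem_omega V _
  · intro x hx
    refine ball_omega (R := fun U x => ∃! y, Rel (EU U) (cl U (sqN v)) x y)
      (Df.exu (Df.Rel _ _ _)) ⊤ ?_ U U.top x hx
    intro U _ a
    exact ⟨cl U (v a), (rel_sqN v U a _).2 rfl, fun y hy => (rel_sqN v U a y).1 hy⟩

/-! ### the set of all points of the product, classes and open sets -/

variable (B) in
/-- the set of all functions from `w` to `w1` -/
noncomputable def mapsN : BSet B :=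
  sepN (powN (powN (powN (w1N B)))) (Df.IsMap (B := B) (G := BSet B) (fun x => x)
    (fun _ => wN B) (fun _ => w1N B)).choose

theorem mem_mapsN (U : Ult B) (y : MU U) : EU U y (cl U (mapsN B)) ↔
    IsMap (EU U) y (cl U (wN B)) (cl U (w1N B)) := by
  have h := (Df.IsMap (B := B) (G := BSet B) (fun x => x) (fun _ => wN B)
    (fun _ => w1N B)).choose_spec
  have hL : Los (Df.IsMap (B := B) (G := BSet B) (fun x => x)
    (fun _ => wN B) (fun _ => w1N B)).choose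
    (fun U x => IsMap (EU U) x (cl U (wN B)) (cl U (w1N B))) := fun U x => h U x
  rw [mapsN, EU_sepN hL]
  refine and_iff_right_of_imp fun hy => ?_
  rw [EU_powN]
  intro p hp
  rw [EU_powN]
  intro s hs
  rw [EU_powN]
  intro a ha
  obtain ⟨n, b, hn, hpair⟩ := hy.1.1 p hp
  have hb : EU U b (cl U (w1N B)) := hy.2 n b ⟨p, hpair, hp⟩
  have hn' : EU U n (cl U (w1N B)) := (mem_w1N U n).2 (Or.inl hn)
  rcases (hpair s).1 hs with h1 | h1
  · rw [(h1 a).1 ha]; exact hn'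
  · rcases (h1 a).1 ha with h2 | h2
    · rw [h2]; exact hn'
    · rw [h2]; exact hb

/-- the class of `x` -/
noncomputable def clsN (x : BSet B) : BSet B :=
  sepN (mapsN B) (Df.Eqv (B := B) (G := BSet B) (fun _ => wN B) (fun _ => x)
    (fun y => y)).choose

theorem mem_clsN (U : Ult B) (x : BSet B) (y : MU U) : EU U y (cl U (clsN x)) ↔
    IsMap (EU U) y (cl U (wN B)) (cl U (w1N B)) ∧ Eqv (EU U) (cl U (wN B)) (cl U x) y := by
  have h := (Df.Eqv (B := B) (G := BSet B) (fun _ => wN B) (fun _ => x)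
    (fun y => y)).choose_spec
  have hL : Los (Df.Eqv (B := B) (G := BSet B) (fun _ => wN B) (fun _ => x)
    (fun y => y)).choose (fun U y => Eqv (EU U) (cl U (wN B)) (cl U x) y) := fun U x => h U x
  rw [clsN, EU_sepN hL, mem_mapsN]

theorem isCls_clsN (U : Ult B) (x : BSet B)
    (hx : IsMap (EU U) (cl U x) (cl U (wN B)) (cl U (w1N B))) :
    IsCls (EU U) (cl U (wN B)) (cl U (w1N B)) (cl U (clsN x)) := ⟨cl U x, hx, mem_clsN U x⟩

theorem opn_df (x : BSet B) : Df (B := B) (G := BSet B) (fun U c =>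
    IsCls (EU U) (cl U (wN B)) (cl U (w1N B)) (cl U c) ∧
      ∃ t, EU U t (cl U c) ∧ Nb (EU U) (cl U (wN B)) (cl U x) t) :=
  Df.and (Df.IsCls _ _ _) (Df.ex (Df.and (Df.mem _ _) (Df.Nb _ _ _)))

/-- the set `U_x` of all classes of points of `N(x, 0)` -/
noncomputable def opnN (x : BSet B) : BSet B := sepN (powN (mapsN B)) (opn_df x).choose

theorem mem_opnN (U : Ult B) (x : BSet B) (c : MU U) : EU U c (cl U (opnN x)) ↔
    IsCls (EU U) (cl U (wN B)) (cl U (w1N B)) c ∧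
      ∃ t, EU U t c ∧ Nb (EU U) (cl U (wN B)) (cl U x) t := by
  have h := (opn_df x).choose_spec
  rw [opnN, EU_sepN (P' := fun U c => IsCls (EU U) (cl U (wN B)) (cl U (w1N B)) c ∧
      ∃ t, EU U t c ∧ Nb (EU U) (cl U (wN B)) (cl U x) t) (fun U x => h U x)]
  refine and_iff_right_of_imp fun hc => ?_
  rw [EU_powN]
  intro t ht
  rw [mem_mapsN]
  exact hc.1.map ht

/-- `N(x, 0)` is open -/
theorem nb_box (x : BSet B) (b : B)
    (hx : ∀ U : Ult B, b ∈ U.s → IsMap (EU U) (cl U x) (cl U (wN B)) (cl U (w1N B)))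
    (U : Ult B) (hU : b ∈ U.s) (z : MU U)
    (hz : IsMap (EU U) z (cl U (wN B)) (cl U (w1N B))) (hn : Nb (EU U) (cl U (wN B)) (cl U x) z) :
    ∃ v, IsBox (EU U) (cl U (wN B)) (cl U (w1N B)) v z ∧
      ∀ y, IsBox (EU U) (cl U (wN B)) (cl U (w1N B)) v y →
        IsMap (EU U) y (cl U (wN B)) (cl U (w1N B)) → Nb (EU U) (cl U (wN B)) (cl U x) y := by
  obtain ⟨m, hm, hmn⟩ := hn
  obtain ⟨z, rfl⟩ := cl_surj U z
  obtain ⟨c, hc⟩ := Df.get (B := B) (P' := fun U => b ∈ U.s ∧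
    IsMap (EU U) (cl U z) (cl U (wN B)) (cl U (w1N B))) (Df.and (Df.val (fun _ => b))
      (Df.IsMap _ _ _))
  refine ball_omega (R := fun U m => (∀ n a, EU U n (cl U (wN B)) → ¬ EU U n m →
    Rel (EU U) (cl U x) n a → a ≠ cl U (wN B) → Rel (EU U) (cl U z) n a) →
    ∃ v, IsBox (EU U) (cl U (wN B)) (cl U (w1N B)) v (cl U z) ∧
      ∀ y, IsBox (EU U) (cl U (wN B)) (cl U (w1N B)) v y →
        IsMap (EU U) y (cl U (wN B)) (cl U (w1N B)) →
        Nb (EU U) (cl U (wN B)) (cl U x) y) ?_ c ?_ U ((hc U).1 ⟨hU, hz⟩) m hm hmn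
  · refine Df.imp (Df.all (Df.all (Df.imp (Df.mem _ _) (Df.imp (Df.not (Df.mem _ _))
      (Df.imp (Df.Rel _ _ _) (Df.imp (Df.not (Df.eq _ _)) (Df.Rel _ _ _))))))) ?_
    exact Df.ex (Df.and (Df.IsBox _ _ _ _) (Df.all (Df.imp (Df.IsBox _ _ _ _)
      (Df.imp (Df.IsMap _ _ _) (Df.Nb _ _ _)))))
  intro U hU m hmn
  obtain ⟨hb, hz⟩ := (hc U).2 hU
  have hxm := hx U hb
  -- the sides of the box
  have hP : ∀ n : ℕ, ∃ P : BSet B → B, ∀ U a, (n < m ∨
      Rel (EU U) (cl U x) (cl U (oN B n)) (cl U (wN B)) ∨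
      Rel (EU U) (cl U x) (cl U (oN B n)) (cl U a)) ↔ P a ∈ U.s := fun n =>
    Df.or (G := BSet B) (Df.const _) (Df.or (Df.Rel _ _ _) (Df.Rel _ _ _))
  choose P hP using hP
  have hmem : ∀ (U : Ult B) (n : ℕ) (a : MU U), EU U a (cl U (sepN (w1N B) (P n))) ↔
      EU U a (cl U (w1N B)) ∧ (n < m ∨
      Rel (EU U) (cl U x) (cl U (oN B n)) (cl U (wN B)) ∨
      Rel (EU U) (cl U x) (cl U (oN B n)) a) := fun U n a =>
    EU_sepN (P' := fun U a => (n < m ∨
      Rel (EU U) (cl U x) (cl U (oN B n)) (cl U (wN B)) ∨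
      Rel (EU U) (cl U x) (cl U (oN B n)) a)) (fun U a => hP n U a) U _ a
  set v : ℕ → BSet B := fun n => sepN (w1N B) (P n) with hv
  have hopn : ∀ U : Ult B, c ∈ U.s → ∀ n : ℕ,
      IsOpnF (EU U) (cl U (wN B)) (cl U (w1N B)) (cl U (v n)) := by
    intro U hU n
    obtain ⟨hb, hz⟩ := (hc U).2 hU
    refine ⟨fun a ha => ((hmem U n a).1 ha).1, fun hw => ?_⟩
    have h1 := ((hmem U n _).1 hw).2
    refine ⟨cl U (oN B (0 : ℕ)), nat_mem_omega U 0, fun k hk _ => ?_⟩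
    refine (hmem U n k).2 ⟨(mem_w1N U k).2 (Or.inl hk), ?_⟩
    rcases h1 with h1 | h1 | h1
    · exact Or.inl h1
    · exact Or.inr (Or.inl h1)
    · exact Or.inr (Or.inl h1)
  refine ⟨cl U (sqN v), ⟨isFn_sqN v U, ?_, ?_⟩, ?_⟩
  · intro n s hns
    refine ball_omega (R := fun U n => ∀ s, Rel (EU U) (cl U (sqN v)) n s →
      IsOpnF (EU U) (cl U (wN B)) (cl U (w1N B)) s) (Df.all (Df.imp (Df.Rel _ _ _)
        (Df.IsOpnF _ _ _))) c ?_ U hU n ((isFn_sqN v U).dom (zfc U) hns) s hns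
    intro U hU n s hs
    rw [rel_sqN] at hs
    rw [hs]
    exact hopn U hU n
  · intro n s a hns hna
    obtain ⟨d, hd⟩ := Df.get (B := B) (P' := fun U => c ∈ U.s ∧
      ∀ n a, EU U n (cl U (wN B)) → ¬ EU U n (cl U (oN B m)) →
      Rel (EU U) (cl U x) n a → a ≠ cl U (wN B) → Rel (EU U) (cl U z) n a)
      (Df.and (Df.val (fun _ => c)) (Df.all (Df.all (Df.imp (Df.mem _ _)
      (Df.imp (Df.not (Df.mem _ _)) (Df.imp (Df.Rel _ _ _) (Df.imp (Df.not (Df.eq _ _))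
      (Df.Rel _ _ _))))))))
    refine ball_omega (R := fun U n => ∀ s a, Rel (EU U) (cl U (sqN v)) n s →
      Rel (EU U) (cl U z) n a → EU U a s) (Df.all (Df.all (Df.imp (Df.Rel _ _ _)
        (Df.imp (Df.Rel _ _ _) (Df.mem _ _))))) d ?_ U ((hd U).1 ⟨hU, hmn⟩) n
        ((isFn_sqN v U).dom (zfc U) hns) s a hns hna
    intro U hU n s a hs ha
    obtain ⟨hU, hmn⟩ := (hd U).2 hU
    obtain ⟨hb, hz⟩ := (hc U).2 hU
    rw [rel_sqN] at hs
    rw [hs]
    refine (hmem U n a).2 ⟨hz.2 _ _ ha, ?_⟩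
    by_cases h1 : n < m
    · exact Or.inl h1
    right
    obtain ⟨a', ha', -⟩ := (hx U hb).1.2 _ (nat_mem_omega U n)
    by_cases h2 : a' = cl U (wN B)
    · left; rw [← h2]; exact ha'
    · right
      have h3 := hmn _ a' (nat_mem_omega U n) (by rw [EU_oN, Nat.cast_lt]; exact h1) ha' h2
      rw [(hz.1.2 _ (nat_mem_omega U n)).unique ha h3]
      exact ha'
  · intro y hy hym
    refine ⟨cl U (oN B m), nat_mem_omega U m, fun n a hn hnm hna haw => ?_⟩
    obtain ⟨y, rfl⟩ := cl_surj U y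
    obtain ⟨d, hd⟩ := Df.get (B := B) (P' := fun U => c ∈ U.s ∧
      IsBox (EU U) (cl U (wN B)) (cl U (w1N B)) (cl U (sqN v)) (cl U y) ∧
      IsMap (EU U) (cl U y) (cl U (wN B)) (cl U (w1N B)))
      (Df.and (Df.val (fun _ => c)) (Df.and (Df.IsBox _ _ _ _) (Df.IsMap _ _ _)))
    refine ball_omega (R := fun U n => ∀ a, ¬ EU U n (cl U (oN B m)) →
      Rel (EU U) (cl U x) n a → a ≠ cl U (wN B) → Rel (EU U) (cl U y) n a) (Df.all
      (Df.imp (Df.not (Df.mem _ _)) (Df.imp (Df.Rel _ _ _) (Df.imp (Df.not (Df.eq _ _))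
      (Df.Rel _ _ _))))) d ?_ U ((hd U).1 ⟨hU, hy, hym⟩) n hn a hnm hna haw
    intro U hU n a hnm hna haw
    obtain ⟨hU, hy, hym⟩ := (hd U).2 hU
    obtain ⟨hb, hz⟩ := (hc U).2 hU
    rw [EU_oN, Nat.cast_lt] at hnm
    obtain ⟨a', ha', -⟩ := hym.1.2 _ (nat_mem_omega U n)
    have h1 := hy.2.2 _ _ a' ((rel_sqN v U n _).2 rfl) ha'
    rcases ((hmem U n a').1 h1).2 with h2 | h2 | h2
    · exact absurd h2 hnm
    · exact absurd (((hx U hb).1.2 _ (nat_mem_omega U n)).unique hna h2) haw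
    · rw [((hx U hb).1.2 _ (nat_mem_omega U n)).unique hna h2]
      exact ha'

/-- `U_x` is an open set -/
theorem isNOpn_opnN (x : BSet B) (b : B)
    (hx : ∀ U : Ult B, b ∈ U.s → IsMap (EU U) (cl U x) (cl U (wN B)) (cl U (w1N B)))
    (U : Ult B) (hU : b ∈ U.s) :
    IsNOpn (EU U) (cl U (wN B)) (cl U (w1N B)) (cl U (opnN x)) := by
  refine ⟨fun c hc => ((mem_opnN U x c).1 hc).1, fun c z hc hz => ?_⟩
  obtain ⟨hc1, t, ht, htn⟩ := (mem_opnN U x c).1 hc
  have hzm := hc1.map hz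
  obtain ⟨v, hv1, hv2⟩ := nb_box x b hx U hU z hzm
    (htn.congr (dirW U) hzm.1 (hc1.eqv (dirW U) ht hz))
  refine ⟨v, hv1, fun y hy hym => ?_⟩
  obtain ⟨y, rfl⟩ := cl_surj U y
  have hyy : EU U (cl U y) (cl U (clsN y)) :=
    (mem_clsN U y _).2 ⟨hym, eqv_refl ⟨_, nat_mem_omega U 0⟩ hym.1⟩
  exact ⟨cl U (clsN y), (mem_opnN U x _).2 ⟨isCls_clsN U y hym, _, hyy, hv2 _ hy hym⟩, hyy⟩

/-- `[x]` is in `U_x` -/
theorem cls_mem_opn (x : BSet B) (U : Ult B)
    (hx : IsMap (EU U) (cl U x) (cl U (wN B)) (cl U (w1N B))) :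
    EU U (cl U (clsN x)) (cl U (opnN x)) := by
  have hxx : EU U (cl U x) (cl U (clsN x)) :=
    (mem_clsN U x _).2 ⟨hx, eqv_refl ⟨_, nat_mem_omega U 0⟩ hx.1⟩
  exact (mem_opnN U x _).2 ⟨isCls_clsN U x hx, _, hxx, cl U (oN B (0 : ℕ)), nat_mem_omega U 0,
    fun n a hn _ ha _ => ha⟩

end DN
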