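import Pool.Agent.DN.T2

/-!
# Project DN (MP_d362fb_lc): the points given by names of partial functions
-/

set_option autoImplicit false

namespace DN

open CI BSet Ordinal

universe u v

variable {B : Type u} [CompleteBooleanAlgebra B] {G : Type v}

/-- the ordinal of a point of `ω + 1` -/
noncomputable def vo : Option ℕ → Ordinal.{u}
  | none => ω
  | some k => k

theorem vo_inj {o o' : Option ℕ} (h : vo.{u} o = vo.{u} o') : o = o' := by
  cases o with
  | none =>
    cases o' with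
    | none => rfl
    | some l => exact absurd h.symm (natCast_lt_omega0 l).ne
  | some k =>
    cases o' with
    | none => exact absurd h (natCast_lt_omega0 k).ne
    | some l =>
      have h' : (k : Ordinal.{u}) = (l : Ordinal.{u}) := h
      rw [Nat.cast_inj] at h'
      rw [h']

variable (B) in
/-- the name of a point of `ω + 1` -/
noncomputable def vN (o : Option ℕ) : BSet B := oN B (vo o)

theorem vN_none : vN B none = wN B := rfl

theorem vN_some (k : ℕ) : vN B (some k) = oN B k := rfl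

theorem vN_inj (U : Ult B) {o o' : Option ℕ} : cl U (vN B o) = cl U (vN B o') ↔ o = o' := by
  rw [vN, vN, oN_inj]
  exact ⟨vo_inj, fun h => by rw [h]⟩

theorem beq_vN_ne {o o' : Option ℕ} (h : o ≠ o') : beq (vN B o) (vN B o') = ⊥ :=
  beq_oN_ne fun h' => h (vo_inj h')

theorem vN_mem (U : Ult B) (o : Option ℕ) : EU U (cl U (vN B o)) (cl U (w1N B)) := by
  rw [mem_w1N]
  cases o with
  | none => exact Or.inr rfl
  | some k => exact Or.inl (nat_mem_omega U k)

/-- bounded quantifiers over `ω + 1` -/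
theorem ball_w1 {R : ∀ U : Ult B, MU U → Prop}
    (h : Df (G := BSet B) (fun U x => R U (cl U x))) (b : B)
    (hb : ∀ U : Ult B, b ∈ U.s → ∀ o : Option ℕ, R U (cl U (vN B o)))
    (U : Ult B) (hU : b ∈ U.s) (x : MU U) (hx : EU U x (cl U (w1N B))) : R U x := by
  rcases (mem_w1N U x).1 hx with hx | hx
  · exact ball_omega h b (fun U hU n => hb U hU (some n)) U hU x hx
  · rw [hx]
    exact hb U hU none

/-- the truth value of `x(n) = o` -/
def PFu.g (x : PFu B) (n : ℕ) : Option ℕ → B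
  | none => (x.dom n)ᶜ
  | some k => x.f n k

theorem PFu.le_dom (x : PFu B) (n k : ℕ) : x.f n k ≤ x.dom n := le_iSup (x.f n) k

theorem PFu.g_disj (x : PFu B) (n : ℕ) {o o' : Option ℕ} (h : o ≠ o') :
    x.g n o ⊓ x.g n o' = ⊥ := by
  cases o with
  | none =>
    cases o' with
    | none => exact absurd rfl h
    | some k =>
      rw [PFu.g, PFu.g, eq_bot_iff, ← compl_inf_eq_bot (a := x.dom n)]
      exact inf_le_inf_left _ (x.le_dom n k)
  | some k =>
    cases o' with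
    | none =>
      rw [PFu.g, PFu.g, eq_bot_iff, ← inf_compl_eq_bot (a := x.dom n)]
      exact inf_le_inf_right _ (x.le_dom n k)
    | some l =>
      exact x.disj n k l fun h' => h (by rw [h'])

theorem PFu.g_top (x : PFu B) (n : ℕ) : ⨆ o, x.g n o = ⊤ := by
  rw [iSup_option]
  exact compl_sup_eq_top

/-- the name of the point -/
noncomputable def ptN (x : PFu B) : BSet B :=
  relN (I := ULift.{u} (ℕ × Option ℕ)) (fun p => x.g p.down.1 p.down.2)
    (fun p => oN B (p.down.1 : ℕ)) (fun p => vN B p.down.2)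

theorem rel_ptN' (x : PFu B) (U : Ult B) (n : ℕ) (y : BSet B) :
    Rel (EU U) (cl U (ptN x)) (cl U (oN B n)) (cl U y) ↔
      (⨆ o, x.g n o ⊓ beq y (vN B o)) ∈ U.s := by
  rw [ptN, rel_relN]
  have : (⨆ p : ULift.{u} (ℕ × Option ℕ), x.g p.down.1 p.down.2 ⊓
      (beq (oN B n) (oN B (p.down.1 : ℕ)) ⊓ beq y (vN B p.down.2))) =
      ⨆ o, x.g n o ⊓ beq y (vN B o) := by
    apply le_antisymm
    · refine iSup_le fun p => ?_
      obtain ⟨m, k⟩ := p
      change x.g m k ⊓ (beq (oN B n) (oN B m) ⊓ beq y (vN B k)) ≤ _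
      by_cases h : n = m
      · subst h
        refine le_iSup_of_le k ?_
        exact inf_le_inf_left _ inf_le_right
      · rw [beq_nat_ne h]; simp
    · refine iSup_le fun k => ?_
      refine le_iSup_of_le ⟨(n, k)⟩ ?_
      change x.g n k ⊓ beq y (vN B k) ≤ x.g n k ⊓ (beq (oN B n) (oN B n) ⊓ beq y (vN B k))
      rw [beq_refl, top_inf_eq]
  rw [this]

theorem rel_ptN (x : PFu B) (U : Ult B) (n : ℕ) (o : Option ℕ) :
    Rel (EU U) (cl U (ptN x)) (cl U (oN B n)) (cl U (vN B o)) ↔ x.g n o ∈ U.s := by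
  rw [rel_ptN']
  have : (⨆ j, x.g n j ⊓ beq (vN B o) (vN B j)) = x.g n o := by
    apply le_antisymm
    · refine iSup_le fun j => ?_
      by_cases h : o = j
      · subst h; exact inf_le_left
      · rw [beq_vN_ne h]; simp
    · refine le_iSup_of_le o ?_
      rw [beq_refl, inf_top_eq]
  rw [this]

theorem isMap_ptN (x : PFu B) (U : Ult B) :
    IsMap (EU U) (cl U (ptN x)) (cl U (wN B)) (cl U (w1N B)) := by
  have hval : ∀ (U : Ult B) (s t : BSet B), (⨆ p : ULift.{u} (ℕ × Option ℕ),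
      x.g p.down.1 p.down.2 ⊓ (beq s (oN B (p.down.1 : ℕ)) ⊓ beq t (vN B p.down.2))) ∈ U.s →
      EU U (cl U s) (cl U (wN B)) ∧ EU U (cl U t) (cl U (w1N B)) := by
    intro U s t h
    rw [EU_cl, EU_cl, ← U.inf]
    refine U.mono ?_ h
    refine iSup_le fun p => ?_
    rw [le_iff_ult]
    intro V hV
    rw [V.inf, V.inf, ← cl_eq, ← cl_eq] at hV
    rw [V.inf, ← EU_cl, ← EU_cl, hV.2.1, hV.2.2]
    exact ⟨nat_mem_omega V _, vN_mem V _⟩
  refine ⟨⟨?_, ?_⟩, ?_⟩
  · intro p hp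
    obtain ⟨s, t, rfl, h⟩ := mem_relN U _ _ _ p hp
    exact ⟨cl U s, cl U t, (hval U s t h).1, isPair_opN U s t⟩
  · intro a ha
    refine ball_omega (R := fun U a => ∃! y, Rel (EU U) (cl U (ptN x)) a y)
      (Df.exu (Df.Rel _ _ _)) ⊤ ?_ U U.top a ha
    intro U _ n
    have hex : ∃ y, Rel (EU U) (cl U (ptN x)) (cl U (oN B n)) y := by
      obtain ⟨P, hP⟩ := Df.get (B := B)
        (P' := fun U => ∃ y, Rel (EU U) (cl U (ptN x)) (cl U (oN B n)) y) (Df.ex (Df.Rel _ _ _))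
      refine (hP U).2 (U.mono ?_ U.top)
      rw [← x.g_top n]
      refine iSup_le fun k => ?_
      rw [le_iff_ult]
      intro V hV
      exact (hP V).1 ⟨cl V (vN B k), (rel_ptN x V n k).2 hV⟩
    obtain ⟨y, hy⟩ := hex
    refine ⟨y, hy, ?_⟩
    intro z hz
    obtain ⟨y, rfl⟩ := cl_surj U y
    obtain ⟨z, rfl⟩ := cl_surj U z
    rw [rel_ptN'] at hy hz
    rw [cl_eq]
    refine U.mono ?_ ((U.inf _ _).2 ⟨hy, hz⟩)
    rw [iSup_inf_iSup]
    refine iSup_le fun p => ?_
    obtain ⟨k, l⟩ := p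
    rw [le_iff_ult]
    intro V hV
    simp only [V.inf] at hV
    obtain ⟨⟨h1, h2⟩, h3, h4⟩ := hV
    have hkl : k = l := by
      by_contra hne
      have : x.g n k ⊓ x.g n l ∈ V.s := (V.inf _ _).2 ⟨h1, h3⟩
      rw [x.g_disj n hne] at this
      exact V.bot this
    subst hkl
    rw [← cl_eq] at h2 h4 ⊢
    rw [h2, h4]
  · intro a y hxy
    obtain ⟨a, rfl⟩ := cl_surj U a
    obtain ⟨y, rfl⟩ := cl_surj U y
    rw [ptN, rel_relN] at hxy
    exact (hval U a y hxy).2

/-- two points with equal values from `m` on are equivalent -/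
theorem eqv_ptN (x y : PFu B) (b : B) (m : ℕ) (h : ∀ n, m ≤ n → ∀ o o', o ≠ o' →
    b ⊓ (x.g n o ⊓ y.g n o') = ⊥) (U : Ult B) (hU : b ∈ U.s) :
    Eqv (EU U) (cl U (wN B)) (cl U (ptN x)) (cl U (ptN y)) := by
  refine ⟨cl U (oN B m), nat_mem_omega U m, fun n a a' hn hnm ha ha' => ?_⟩
  refine ball_omega (R := fun U n => ∀ a a', EU U a (cl U (w1N B)) → EU U a' (cl U (w1N B)) →
    ¬ EU U n (cl U (oN B m)) → Rel (EU U) (cl U (ptN x)) n a → Rel (EU U) (cl U (ptN y)) n a' →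
    a = a') (Df.all (Df.all (Df.imp (Df.mem _ _) (Df.imp (Df.mem _ _) (Df.imp
      (Df.not (Df.mem _ _)) (Df.imp (Df.Rel _ _ _) (Df.imp (Df.Rel _ _ _) (Df.eq _ _)))))))) b ?_
    U hU n hn a a' ((isMap_ptN x U).2 _ _ ha) ((isMap_ptN y U).2 _ _ ha') hnm ha ha'
  intro U hU n a a' ha ha' hnm
  rw [EU_oN, Nat.cast_lt, not_lt] at hnm
  refine ball_w1 (R := fun U a => ∀ a', EU U a' (cl U (w1N B)) →
    Rel (EU U) (cl U (ptN x)) (cl U (oN B n)) a → Rel (EU U) (cl U (ptN y)) (cl U (oN B n)) a' →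
    a = a') (Df.all (Df.imp (Df.mem _ _) (Df.imp (Df.Rel _ _ _) (Df.imp (Df.Rel _ _ _)
      (Df.eq _ _))))) b ?_ U hU a ha a' ha'
  intro U hU o a' ha'
  refine ball_w1 (R := fun U a' =>
    Rel (EU U) (cl U (ptN x)) (cl U (oN B n)) (cl U (vN B o)) →
    Rel (EU U) (cl U (ptN y)) (cl U (oN B n)) a' →
    cl U (vN B o) = a') (Df.imp (Df.Rel _ _ _) (Df.imp (Df.Rel _ _ _)
      (Df.eq _ _))) b ?_ U hU a' ha'
  intro U hU o' h1 h2
  rw [rel_ptN] at h1 h2
  rw [vN_inj]
  by_contra hne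
  apply U.bot
  rw [← h n hnm o o' hne]
  exact (U.inf _ _).2 ⟨hU, (U.inf _ _).2 ⟨h1, h2⟩⟩

end DN
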