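import Pool.Agent.DN.T3

/-!
# Project DN (MP_d362fb_lc): from the Boolean core to the model
-/

set_option autoImplicit false

namespace DN

open CI BSet Ordinal

universe u v

variable {B : Type u} [CompleteBooleanAlgebra B] {G : Type v}

/-- equal to `x` below `m`, and to the union of `x` and `y` (`x` first) from `m` on -/
def mrg (x y : PFu B) (m : ℕ) : PFu B where
  f n k := if n < m then x.f n k else x.f n k ⊔ (y.f n k ⊓ (x.dom n)ᶜ)
  disj n k k' h := by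
    by_cases hn : n < m
    · simp only [hn, if_true]
      exact x.disj n k k' h
    · simp only [hn, if_false]
      rw [inf_sup_left, inf_sup_right, inf_sup_right, x.disj n k k' h]
      have h1 : y.f n k ⊓ (x.dom n)ᶜ ⊓ x.f n k' = ⊥ := by
        rw [eq_bot_iff, ← compl_inf_eq_bot (a := x.dom n)]
        exact inf_le_inf inf_le_right (x.le_dom n k')
      have h2 : x.f n k ⊓ (y.f n k' ⊓ (x.dom n)ᶜ) = ⊥ := by
        rw [eq_bot_iff, ← inf_compl_eq_bot (a := x.dom n)]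
        exact inf_le_inf (x.le_dom n k) inf_le_right
      have h3 : y.f n k ⊓ (x.dom n)ᶜ ⊓ (y.f n k' ⊓ (x.dom n)ᶜ) = ⊥ := by
        rw [eq_bot_iff, ← y.disj n k k' h]
        exact inf_le_inf inf_le_left inf_le_left
      rw [h1, h2, h3]
      simp

theorem mrg_lt (x y : PFu B) {m n : ℕ} (h : n < m) (o : Option ℕ) :
    (mrg x y m).g n o = x.g n o := by
  cases o with
  | none => simp [PFu.g, PFu.dom, mrg, h]
  | some k => simp [PFu.g, mrg, h]

theorem mrg_dom (x y : PFu B) {m n : ℕ} (h : m ≤ n) :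
    (mrg x y m).dom n = x.dom n ⊔ y.dom n := by
  have h1 : (mrg x y m).dom n = ⨆ k, (x.f n k ⊔ (y.f n k ⊓ (x.dom n)ᶜ)) := by
    simp [PFu.dom, mrg, not_lt.2 h]
  rw [h1, iSup_sup_eq, ← iSup_inf_eq]
  change x.dom n ⊔ (y.dom n ⊓ (x.dom n)ᶜ) = _
  rw [sup_inf_left, sup_compl_eq_top, inf_top_eq]

theorem mrg_some (x y : PFu B) {m n : ℕ} (h : m ≤ n) (k : ℕ) (U : Ult B) :
    (mrg x y m).g n (some k) ∈ U.s ↔ x.f n k ∈ U.s ∨ (y.f n k ∈ U.s ∧ x.dom n ∉ U.s) := by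
  have h1 : (mrg x y m).g n (some k) = x.f n k ⊔ (y.f n k ⊓ (x.dom n)ᶜ) := by
    simp [PFu.g, mrg, not_lt.2 h]
  rw [h1, U.sup, U.inf, U.compl]

theorem mrg_none (x y : PFu B) {m n : ℕ} (h : m ≤ n) (U : Ult B) :
    (mrg x y m).g n none ∈ U.s ↔ x.dom n ∉ U.s ∧ y.dom n ∉ U.s := by
  have h1 : (mrg x y m).g n none = (x.dom n ⊔ y.dom n)ᶜ := by
    rw [PFu.g, mrg_dom x y h]
  rw [h1, U.compl, U.sup, not_or]

theorem agr_mem {x y : PFu B} {m n : ℕ} (hn : m ≤ n) {U : Ult B} (h : agr x y m ∈ U.s) {k l : ℕ}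
    (hk : x.f n k ∈ U.s) (hl : y.f n l ∈ U.s) : k = l := by
  by_contra hne
  have h1 : agr x y m ≤ (x.f n k ⊓ y.f n l)ᶜ :=
    (iInf₂_le n hn).trans ((iInf₂_le k l).trans (iInf_le _ hne))
  have h2 := U.mono h1 h
  rw [U.compl, U.inf] at h2
  exact h2 ⟨hk, hl⟩

theorem abv_mem {x y : PFu B} {h : Fu B} {m n : ℕ} (hn : m ≤ n) {U : Ult B}
    (hU : abv x y h m ∈ U.s) {k l : ℕ}
    (hk : x.f n k ∈ U.s) (hy : y.dom n ∉ U.s) (hl : h.f n l ∈ U.s) : l < k := by
  by_contra hne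
  have h1 : abv x y h m ≤ (x.f n k ⊓ (y.dom n)ᶜ ⊓ h.f n l)ᶜ :=
    (iInf₂_le n hn).trans ((iInf₂_le k l).trans (iInf_le _ (not_lt.1 hne)))
  have h2 := U.mono h1 hU
  rw [U.compl, U.inf, U.inf, U.compl] at h2
  exact h2 ⟨⟨hk, hy⟩, hl⟩

/-- the two merged points are equivalent -/
theorem mrg_eqv (x y : PFu B) (m m' : ℕ) (U : Ult B) (hU : agr x y m ∈ U.s) (hm : m ≤ m') :
    Eqv (EU U) (cl U (wN B)) (cl U (ptN (mrg x y m'))) (cl U (ptN (mrg y x m'))) := by
  refine eqv_ptN _ _ (agr x y m) m' ?_ U hU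
  intro n hn o o' hne
  by_contra hbot
  obtain ⟨V, hV⟩ := exists_ult hbot
  rw [V.inf, V.inf] at hV
  obtain ⟨h1, h2, h3⟩ := hV
  have hmn := hm.trans hn
  cases o with
  | none =>
    rw [mrg_none x y hn] at h2
    cases o' with
    | none => exact hne rfl
    | some l =>
      rw [mrg_some y x hn] at h3
      rcases h3 with h3 | h3
      · exact h2.2 (V.mono (y.le_dom n l) h3)
      · exact h2.1 (V.mono (x.le_dom n l) h3.1)
  | some k =>
    rw [mrg_some x y hn] at h2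
    cases o' with
    | none =>
      rw [mrg_none y x hn] at h3
      rcases h2 with h2 | h2
      · exact h3.2 (V.mono (x.le_dom n k) h2)
      · exact h3.1 (V.mono (y.le_dom n k) h2.1)
    | some l =>
      rw [mrg_some y x hn] at h3
      apply hne
      have hxx : ∀ k l, x.f n k ∈ V.s → x.f n l ∈ V.s → k = l := by
        intro k l hk hl
        by_contra hkl
        apply V.bot
        rw [← x.disj n k l hkl]
        exact (V.inf _ _).2 ⟨hk, hl⟩
      have hyy : ∀ k l, y.f n k ∈ V.s → y.f n l ∈ V.s → k = l := by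
        intro k l hk hl
        by_contra hkl
        apply V.bot
        rw [← y.disj n k l hkl]
        exact (V.inf _ _).2 ⟨hk, hl⟩
      rcases h2 with h2 | h2 <;> rcases h3 with h3 | h3
      · rw [agr_mem hmn h1 h2 h3]
      · rw [hxx k l h2 h3.1]
      · rw [hyy k l h2.1 h3]
      · exact absurd (V.mono (x.le_dom n l) h3.1) h2.2

/-- for every point `x` there are a name of a box contained in `G([x], U_x)` and a name of a
function `F(x)` -/
theorem exists_side (x : PFu B) (g : BSet B) (b : B)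
    (hb : ∀ U : Ult B, b ∈ U.s → IsMNOp (EU U) (cl U (wN B)) (cl U (w1N B)) (cl U g)) :
    ∃ (v : BSet B) (F : Fu B), ∀ U : Ult B, b ∈ U.s →
      IsBox (EU U) (cl U (wN B)) (cl U (w1N B)) (cl U v) (cl U (ptN x)) ∧
      (∀ y, IsBox (EU U) (cl U (wN B)) (cl U (w1N B)) (cl U v) y →
        IsMap (EU U) y (cl U (wN B)) (cl U (w1N B)) → ∃ p W d,
          IsPair (EU U) p (cl U (clsN (ptN x))) (cl U (opnN (ptN x))) ∧
          Rel (EU U) (cl U g) p W ∧ EU U d W ∧ EU U y d) ∧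
      ∀ n m : ℕ, x.dom n ∉ U.s → F.f n m ∈ U.s → ∀ k, m ≤ k → ∀ s,
        Rel (EU U) (cl U v) (cl U (oN B n)) s → EU U (cl U (oN B k)) s := by
  -- the box
  have hD1 : Df (B := B) (G := BSet B) (fun U v =>
      IsBox (EU U) (cl U (wN B)) (cl U (w1N B)) (cl U v) (cl U (ptN x)) ∧
      ∀ y, IsBox (EU U) (cl U (wN B)) (cl U (w1N B)) (cl U v) y →
        IsMap (EU U) y (cl U (wN B)) (cl U (w1N B)) → ∃ p W d,
          IsPair (EU U) p (cl U (clsN (ptN x))) (cl U (opnN (ptN x))) ∧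
          Rel (EU U) (cl U g) p W ∧ EU U d W ∧ EU U y d) := by
    refine Df.and (Df.IsBox _ _ _ _) (Df.all (Df.imp (Df.IsBox _ _ _ _)
      (Df.imp (Df.IsMap _ _ _) (Df.ex (Df.ex (Df.ex ?_))))))
    exact Df.and (Df.IsPair _ _ _) (Df.and (Df.Rel _ _ _) (Df.and (Df.mem _ _) (Df.mem _ _)))
  obtain ⟨v, hv⟩ := exists_name (R := fun U v =>
      IsBox (EU U) (cl U (wN B)) (cl U (w1N B)) v (cl U (ptN x)) ∧
      ∀ y, IsBox (EU U) (cl U (wN B)) (cl U (w1N B)) v y →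
        IsMap (EU U) y (cl U (wN B)) (cl U (w1N B)) → ∃ p W d,
          IsPair (EU U) p (cl U (clsN (ptN x))) (cl U (opnN (ptN x))) ∧
          Rel (EU U) (cl U g) p W ∧ EU U d W ∧ EU U y d) hD1 b (by
    intro U hU
    obtain ⟨D, hD, hfn, h1, -⟩ := hb U hU
    have hxm := isMap_ptN x U
    have hc := cls_mem_opn (ptN x) U hxm
    have hO := isNOpn_opnN (ptN x) ⊤ (fun U _ => isMap_ptN x U) U U.top
    have hp := isPair_opN U (clsN (ptN x)) (opnN (ptN x))
    obtain ⟨W, hW, -⟩ := hfn.2 _ ((hD _).2 ⟨_, _, hO, hc, hp⟩)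
    obtain ⟨hWo, hcW, -⟩ := h1 _ _ _ _ hp hW
    have hxx : EU U (cl U (ptN x)) (cl U (clsN (ptN x))) :=
      (mem_clsN U _ _).2 ⟨hxm, eqv_refl ⟨_, nat_mem_omega U 0⟩ hxm.1⟩
    obtain ⟨v, hv1, hv2⟩ := hWo.2 _ _ hcW hxx
    refine ⟨v, hv1, fun y hy hym => ?_⟩
    obtain ⟨d, hd, hyd⟩ := hv2 y hy hym
    exact ⟨_, W, d, hp, hW, hd, hyd⟩)
  -- the function
  have hP : ∀ n m : ℕ, ∃ P : B, ∀ U : Ult B, (∀ k s, EU U k (cl U (wN B)) →
      ¬ EU U k (cl U (oN B m)) → Rel (EU U) (cl U v) (cl U (oN B n)) s → EU U k s) ↔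
      P ∈ U.s := by
    intro n m
    apply Df.get
    exact Df.all (Df.all (Df.imp (Df.mem _ _) (Df.imp (Df.not (Df.mem _ _))
      (Df.imp (Df.Rel _ _ _) (Df.mem _ _)))))
  choose P hP using hP
  set Q : ℕ → ℕ → B := fun n m => P n m ⊔ (b ⊓ (x.dom n)ᶜ)ᶜ with hQ
  have hQtop : ∀ n, ⨆ m, Q n m = ⊤ := by
    intro n
    rw [eq_top_iff_ult]
    intro U
    by_contra hne
    have hall : ∀ V : Ult B, (⨆ m, Q n m)ᶜ ∈ V.s → ∀ m, Q n m ∉ V.s := by
      intro V hV m hm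
      rw [V.compl] at hV
      exact hV (V.mono (le_iSup (Q n) m) hm)
    have hU := (U.compl _).2 hne
    have h0 := hall U hU 0
    rw [hQ] at h0
    simp only [U.sup, U.compl, U.inf, not_or, not_not] at h0
    obtain ⟨-, hbU, hdU⟩ := h0
    obtain ⟨hbox, -⟩ := hv U hbU
    -- the side at `n` contains `ω`
    have hxw : Rel (EU U) (cl U (ptN x)) (cl U (oN B n)) (cl U (wN B)) :=
      (rel_ptN x U n none).2 ((U.compl _).2 hdU)
    obtain ⟨s, hs, hsu⟩ := hbox.1.2 _ (nat_mem_omega U n)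
    have hws := hbox.2.2 _ _ _ hs hxw
    obtain ⟨m, hm, hmk⟩ := (hbox.2.1 _ _ hs).2 hws
    have h2 : ∀ k s, EU U k (cl U (wN B)) → ¬ EU U k m →
        Rel (EU U) (cl U v) (cl U (oN B n)) s → EU U k s := by
      intro k s' hk hkm hs'
      rw [hsu s' hs']
      exact hmk k hk hkm
    refine ball_omega (R := fun U m => ¬ ∀ k s, EU U k (cl U (wN B)) → ¬ EU U k m →
        Rel (EU U) (cl U v) (cl U (oN B n)) s → EU U k s) (Df.not (Df.all (Df.all
        (Df.imp (Df.mem _ _) (Df.imp (Df.not (Df.mem _ _)) (Df.imp (Df.Rel _ _ _)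
        (Df.mem _ _))))))) _ ?_ U hU m hm h2
    intro V hV m hm
    apply hall V hV m
    rw [hQ]
    simp only [V.sup]
    exact Or.inl ((hP n m V).1 hm)
  let F : Fu B :=
    { f := fun n m => Q n m ⊓ (⨆ i : ℕ, ⨆ _ : i < m, Q n i)ᶜ
      disj := by
        have key : ∀ n k k', k < k' → (Q n k ⊓ (⨆ i : ℕ, ⨆ _ : i < k, Q n i)ᶜ) ⊓
            (Q n k' ⊓ (⨆ i : ℕ, ⨆ _ : i < k', Q n i)ᶜ) = ⊥ := by
          intro n k k' h
          rw [eq_bot_iff, ← inf_compl_eq_bot (a := ⨆ i : ℕ, ⨆ _ : i < k', Q n i)]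
          refine inf_le_inf ?_ inf_le_right
          exact inf_le_left.trans (le_iSup₂_of_le k h le_rfl)
        intro n k k' hne
        rcases lt_or_gt_of_ne hne with h | h
        · exact key n k k' h
        · rw [inf_comm]; exact key n k' k h
      top := by
        intro n
        rw [eq_top_iff, ← hQtop n]
        refine iSup_le fun m => ?_
        induction m using Nat.strong_induction_on with
        | _ m ih =>
          calc Q n m = (Q n m ⊓ (⨆ i : ℕ, ⨆ _ : i < m, Q n i)) ⊔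
                (Q n m ⊓ (⨆ i : ℕ, ⨆ _ : i < m, Q n i)ᶜ) := by
                rw [← inf_sup_left, sup_compl_eq_top, inf_top_eq]
            _ ≤ _ := by
                refine sup_le (inf_le_right.trans (iSup₂_le fun i hi => ih i hi)) ?_
                exact le_iSup (fun m => Q n m ⊓ (⨆ i : ℕ, ⨆ _ : i < m, Q n i)ᶜ) m }
  refine ⟨v, F, fun U hU => ⟨(hv U hU).1, (hv U hU).2, ?_⟩⟩
  intro n m hn hm k hk s hs
  have h1 : Q n m ∈ U.s := ((U.inf _ _).1 hm).1
  rw [hQ] at h1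
  simp only [U.sup, U.compl, U.inf] at h1
  rcases h1 with h1 | h1
  · exact (hP n m U).2 h1 _ s (nat_mem_omega U k) (by
      rw [EU_oN, Nat.cast_lt]; exact not_lt.2 hk) hs
  · exact absurd ⟨hU, hn⟩ h1

/-- the merged point is in the box -/
theorem mrg_box (x y : PFu B) (F : Fu B) (v : BSet B) (b : B) (m m' : ℕ) (hm : m ≤ m')
    (hb : ∀ U : Ult B, b ∈ U.s →
      IsBox (EU U) (cl U (wN B)) (cl U (w1N B)) (cl U v) (cl U (ptN x)) ∧
      ∀ n m : ℕ, x.dom n ∉ U.s → F.f n m ∈ U.s → ∀ k, m ≤ k → ∀ s,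
        Rel (EU U) (cl U v) (cl U (oN B n)) s → EU U (cl U (oN B k)) s)
    (U : Ult B) (hU : b ∈ U.s) (hm' : abv y x F m ∈ U.s) :
    IsBox (EU U) (cl U (wN B)) (cl U (w1N B)) (cl U v) (cl U (ptN (mrg x y m'))) := by
  refine ⟨(hb U hU).1.1, (hb U hU).1.2.1, fun n s a hs ha => ?_⟩
  refine ball_omega (R := fun U n => ∀ s a, EU U a (cl U (w1N B)) → Rel (EU U) (cl U v) n s →
    Rel (EU U) (cl U (ptN (mrg x y m'))) n a → EU U a s) (Df.all (Df.all (Df.imp (Df.mem _ _)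
      (Df.imp (Df.Rel _ _ _) (Df.imp (Df.Rel _ _ _) (Df.mem _ _)))))) (b ⊓ abv y x F m) ?_ U
      ((U.inf _ _).2 ⟨hU, hm'⟩) n ((isMap_ptN _ U).1.dom (zfc U) ha) s a
      ((isMap_ptN _ U).2 _ _ ha) hs ha
  intro U hU n s a ha
  refine ball_w1 (R := fun U a => ∀ s, Rel (EU U) (cl U v) (cl U (oN B n)) s →
    Rel (EU U) (cl U (ptN (mrg x y m'))) (cl U (oN B n)) a → EU U a s) (Df.all
      (Df.imp (Df.Rel _ _ _) (Df.imp (Df.Rel _ _ _) (Df.mem _ _)))) _ ?_ U hU a ha s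
  intro U hU o s hs ho
  rw [U.inf] at hU
  rw [rel_ptN] at ho
  have hbU := (hb U hU.1).1
  by_cases hn : n < m'
  · rw [mrg_lt x y hn, ← rel_ptN] at ho
    exact hbU.2.2 _ _ _ hs ho
  rw [not_lt] at hn
  cases o with
  | none =>
    rw [mrg_none x y hn] at ho
    refine hbU.2.2 _ _ _ hs ?_
    rw [rel_ptN]
    exact (U.compl _).2 ho.1
  | some k =>
    rw [mrg_some x y hn] at ho
    rcases ho with ho | ho
    · refine hbU.2.2 _ _ _ hs ?_
      rw [rel_ptN]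
      exact ho
    -- the value comes from `y`
    obtain ⟨Q, hQ⟩ := Df.get (B := B) (P' := fun U => ∀ s, Rel (EU U) (cl U v) (cl U (oN B n)) s →
      EU U (cl U (oN B k)) s) (Df.all (Df.imp (Df.Rel _ _ _) (Df.mem _ _)))
    refine (hQ U).2 (U.mono ?_ ((U.inf _ _).2 ⟨(U.inf _ _).2 hU, (U.inf _ _).2
      ⟨ho.1, (U.compl _).2 ho.2⟩⟩)) s hs
    calc b ⊓ abv y x F m ⊓ (y.f n k ⊓ (x.dom n)ᶜ)
        = (⨆ l, F.f n l) ⊓ (b ⊓ abv y x F m ⊓ (y.f n k ⊓ (x.dom n)ᶜ)) := by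
          rw [F.top, top_inf_eq]
      _ ≤ Q := by
          rw [iSup_inf_eq]
          refine iSup_le fun l => ?_
          rw [le_iff_ult]
          intro V hV
          simp only [V.inf, V.compl] at hV
          obtain ⟨hl, ⟨hb', hab⟩, hyk, hxd⟩ := hV
          have hlk := abv_mem (hm.trans hn) hab hyk hxd hl
          exact (hQ V).1 (fun s hs => (hb V hb').2 n l hxd hl k hlk.le s hs)

end DN
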